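import Pool.Agent.KS6_37.Phi.Link

set_option autoImplicit false

/-!
# For which `g` are all the maps `Φ^V` injective?

Let `g` be a finite-dimensional complex semisimple Lie algebra, `H` a Cartan subalgebra and
`Φ = (p ⊗ φ) ∘ (Id ⊗ π) ∘ Δ : Λ g → Λ H ⊗ A^*` the map of the question. We show that all the maps
`Φ^V` are injective if and only if `g` is a sum of copies of `sl(2)` and `sl(3)`, equivalently if
and only if no abelian subalgebra of `g` is larger than `H`. In all other cases injectivity fails
in a strong sense: there is a nonzero `g`-module map `f : V → Λ g`, `V` irreducible, with `Φ ∘ f = 0`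
on all of `V`.

Negative half. If the root system is not a union of components of types `A1` and `A2`, it contains
roots `α, σ, qσ - α` (`q = 2, 3`; no two of them add up to a root) or a subsystem of type `A3`, in
which the roots `β, α + β, β + γ, α + β + γ` have the same property. Together with their common
kernel in `H` they yield an abelian subalgebra `a` of dimension greater than `dim H`, and the
product in `Λ g` of the elements of a basis of `a` generates a submodule on which `Φ` vanishes.

Positive half. Pairing `Φ(w)` with `η ⊗ t` (`η ∈ Λ H`, `t ∈ A`) is pairing `w` with `τ(t) η`. As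
these elements are invariant under `H`, the injectivity of all `Φ^V` follows once the elements
`τ(t) η`, `t` harmonic, generate `Λ g` as a `g`-module. Harmonic polynomials of orthogonal
components multiply, which reduces this to `sl(2)` and `sl(3)`, where it is a computation (a
certificate checked by the kernel, based on `1, x, y, 2xy + y², x² + 2xy, xy(x + y)` being harmonic
for `A2` with simple coroots `x, y`).
-/

open scoped TensorProduct

namespace Pool.Agent.Results.MP_4ef82d_al.Classification

open Pool.Agent.KS6_37.PhiStmt Module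

/-- For every finite-dimensional complex semisimple Lie algebra `g` with Cartan subalgebra `H`, the
projection `q : g → H` along the root spaces, the space `A` of harmonic polynomials and, for all
`q` and `A`, the map `Φ` exist and are unique. For this `q` and this `A`, all the maps `Φ^V` are
injective if and only if the injectivity does not fail in the strong sense, if and only if all
abelian subalgebras of `g` have dimension at most `dim H`, if and only if all minimal ideals of `g`
have dimension at most `8`, if and only if they are isomorphic to `sl(2)` or `sl(3)`. -/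
theorem result (g : Type) [LieRing g] [LieAlgebra ℂ g] [FiniteDimensional ℂ g]
    [LieAlgebra.IsKilling ℂ g] (H : LieSubalgebra ℂ g) [H.IsCartanSubalgebra] :
    (∃! q : g →ₗ[ℂ] H, IsProjection H q) ∧
    (∃! A : Submodule ℂ (SymmetricAlgebra ℂ H), IsHarmonics H A) ∧
    (∀ (q : g →ₗ[ℂ] H) (A : Submodule ℂ (SymmetricAlgebra ℂ H)), ∃! Φ, IsPhi H q A Φ) ∧
    ∀ (q : g →ₗ[ℂ] H) (A : Submodule ℂ (SymmetricAlgebra ℂ H))
      (Φ : ExteriorAlgebra ℂ g →ₗ[ℂ] ExteriorAlgebra ℂ H ⊗[ℂ] Dual ℂ A),
      IsProjection H q → IsHarmonics H A → IsPhi H q A Φ →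
      List.TFAE [
        AllInjective H Φ,
        ¬ StronglyFails H,
        ∀ a : LieSubalgebra ℂ g, IsLieAbelian a → finrank ℂ a ≤ finrank ℂ H,
        ∀ I : LieIdeal ℂ g, IsAtom I → finrank ℂ I ≤ 8,
        ∀ I : LieIdeal ℂ g, IsAtom I →
          Nonempty (I ≃ₗ⁅ℂ⁆ LieAlgebra.SpecialLinear.sl (Fin 2) ℂ) ∨
          Nonempty (I ≃ₗ⁅ℂ⁆ LieAlgebra.SpecialLinear.sl (Fin 3) ℂ)] := by
  refine ⟨?_, ⟨_, isHarmonics_iff.2 rfl, fun A hA => isHarmonics_iff.1 hA⟩,
    fun q A => ⟨_, isPhi_iff.2 rfl, fun Φ hΦ => isPhi_iff.1 hΦ⟩, fun q A Φ hq hA hΦ => ?_⟩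
  · obtain ⟨q, hq⟩ := Pool.Agent.KS6_37.Phi.exists_proj (g := g) (H := H)
    exact ⟨q, isProjection_iff.2 hq,
      fun q' hq' => Pool.Agent.KS6_37.Phi.proj_unique (isProjection_iff.1 hq') hq⟩
  · rw [isHarmonics_iff] at hA
    subst hA
    rw [isPhi_iff] at hΦ
    have h1 := Pool.Agent.KS6_37.Phi.tfae_injective (isProjection_iff.1 hq)
    rw [← allInjective_iff, ← stronglyFails_iff] at h1
    rw [hΦ]
    exact h1

end Pool.Agent.Results.MP_4ef82d_al.Classification
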